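import Pool.Agent.R161.Bohr.Basic

/-!
MP_0fda35_co, Claim 4.1 (van der Corput argument).
-/

set_option autoImplicit false

namespace Pool.Agent.R938.Bohr

open Finset Filter Topology
open scoped ComplexConjugate
open Pool.Agent.R161.Bohr

universe u v

/-- van der Corput inequality -/
theorem vdc {X : Type v} (m : St X) (n : ℕ) (z : ℂ) (a : X → ℂ) (Ca : ℝ)
    (ha : ∀ x, ‖a x‖ ≤ Ca) (b : ℕ → X → ℂ) (hb : ∀ i, Bdd (b i))
    (h : ∀ i < n, z = m (fun x => a x * b i x)) :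
    (n : ℝ) ^ 2 * ‖z‖ ^ 2 ≤
      Ca ^ 2 * ∑ i ∈ range n, ∑ i' ∈ range n, ‖m (fun x => b i x * conj (b i' x))‖ := by
  have hab : Bdd a := ⟨Ca, ha⟩
  have hS : Bdd (fun x => ∑ i ∈ range n, b i x) := Bdd.sum _ fun i _ => hb i
  have h1 : (n : ℂ) * z = m (fun x => a x * ∑ i ∈ range n, b i x) := by
    have e : (fun x => a x * ∑ i ∈ range n, b i x) = fun x => ∑ i ∈ range n, a x * b i x := by
      funext x
      rw [mul_sum]
    rw [e, m.map_sum _ fun i _ => hab.mul (hb i)]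
    have e2 : ∑ i ∈ range n, m (fun x => a x * b i x) = ∑ i ∈ range n, z :=
      sum_congr rfl fun i hi => (h i (mem_range.1 hi)).symm
    rw [e2, sum_const, card_range, nsmul_eq_mul]
  have h2 : (n : ℝ) ^ 2 * ‖z‖ ^ 2 ≤ m.n2 a * m.n2 (fun x => ∑ i ∈ range n, b i x) := by
    have h3 := m.cs hab hS
    rw [← h1, norm_mul, Complex.norm_natCast, mul_pow] at h3
    exact h3
  have h4 : m.n2 (fun x => ∑ i ∈ range n, b i x)
      ≤ ∑ i ∈ range n, ∑ i' ∈ range n, ‖m (fun x => b i x * conj (b i' x))‖ := by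
    have h5 : (m.n2 (fun x => ∑ i ∈ range n, b i x) : ℂ)
        = ∑ i ∈ range n, ∑ i' ∈ range n, m (fun x => b i x * conj (b i' x)) := by
      rw [m.n2_eq hS]
      have e : (fun x => (∑ i ∈ range n, b i x) * conj (∑ i ∈ range n, b i x))
          = fun x => ∑ i ∈ range n, ∑ i' ∈ range n, b i x * conj (b i' x) := by
        funext x
        rw [_root_.map_sum, sum_mul_sum]
      rw [e, m.map_sum _ fun i _ => Bdd.sum _ fun i' _ => (hb i).mul (hb i').conj]
      exact sum_congr rfl fun i _ => m.map_sum _ fun i' _ => (hb i).mul (hb i').conj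
    have h6 : m.n2 (fun x => ∑ i ∈ range n, b i x)
        = ‖(m.n2 (fun x => ∑ i ∈ range n, b i x) : ℂ)‖ := by
      rw [Complex.norm_real, Real.norm_eq_abs, abs_of_nonneg (m.n2_nonneg hS)]
    rw [h6, h5]
    exact (norm_sum_le _ _).trans (sum_le_sum fun i _ => norm_sum_le _ _)
  refine h2.trans ?_
  exact mul_le_mul (m.n2_le_of ha) h4 (m.n2_nonneg hS) (sq_nonneg _)

theorem dsum (n : ℕ) (D : ℕ → ℕ → ℝ) (p q : ℝ) (hq : 0 ≤ q) (hd : ∀ i < n, D i i ≤ p)
    (ho : ∀ i < n, ∀ i' < n, i ≠ i' → D i i' ≤ q) :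
    ∑ i ∈ range n, ∑ i' ∈ range n, D i i' ≤ n * p + n ^ 2 * q := by
  have h1 : ∀ i ∈ range n, ∑ i' ∈ range n, D i i' ≤ p + n * q := by
    intro i hi
    have hi' := mem_range.1 hi
    have h2 : ∀ i' ∈ range n, D i i' ≤ (if i' = i then p else 0) + q := by
      intro i' hi'2
      have hi'' := mem_range.1 hi'2
      by_cases h : i' = i
      · rw [if_pos h, h]
        linarith [hd i hi']
      · rw [if_neg h]
        linarith [ho i hi' i' hi'' (Ne.symm h)]
    refine (sum_le_sum h2).trans (le_of_eq ?_)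
    rw [sum_add_distrib, sum_ite_eq', if_pos hi, sum_const, card_range, nsmul_eq_mul]
  refine (sum_le_sum h1).trans (le_of_eq ?_)
  rw [sum_const, card_range, nsmul_eq_mul]
  ring

/-- index of a preimage -/
theorem idx {G : Type u} [AddCommGroup G] (f : G →+ G) (H : AddSubgroup G) (hH : H.index ≠ 0) :
    (H.comap f).index ≠ 0 ∧ (H.comap f).index ≤ H.index := by
  rw [AddSubgroup.index_comap]
  have h := AddSubgroup.relIndex_dvd_index_of_normal H f.range
  exact ⟨fun h0 => hH (by rw [h0] at h; exact zero_dvd_iff.1 h),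
    Nat.le_of_dvd (Nat.pos_of_ne_zero hH) h⟩

/-- the shifts, chosen inductively -/
theorem shifts {G : Type u} [AddCommGroup G] {m : St G} (hW : WM m) {g : G → ℂ} (hg : Bdd g)
    {τ : ℝ} (hτ : 0 ≤ τ)
    (hco : ∀ Λ : Finset (AddChar G Circle), ∑ ξ ∈ Λ, ‖coef m g ξ‖ ^ 2 ≤ τ ^ 2)
    (K0 : AddSubgroup G) (hK : K0.index ≠ 0) (Ξ : Finset (AddChar G Circle)) {ε : ℝ} (hε : 0 < ε)
    (n : ℕ) : ∃ k : ℕ → G, (∀ i < n, k i ∈ K0) ∧ ∀ i < n, ∀ i' < i, ∀ ξ ∈ Ξ,
      ‖m (fun x => g (x + k i) * conj (g (x + k i')) * conj (ξ x : ℂ))‖ ≤ τ ^ 2 + ε := by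
  classical
  induction n with
  | zero => exact ⟨fun _ => 0, fun i hi => absurd hi (Nat.not_lt_zero i),
      fun i hi => absurd hi (Nat.not_lt_zero i)⟩
  | succ n ih =>
    obtain ⟨k, hk1, hk2⟩ := ih
    obtain ⟨kn, hkn, hb⟩ := hW g hg τ hτ hco K0 hK ((range n).image k) Ξ ε hε
    refine ⟨Function.update k n kn, fun i hi => ?_, fun i hi i' hi' ξ hξ => ?_⟩
    · rcases eq_or_ne i n with h | h
      · rw [h, Function.update_self]
        exact hkn
      · rw [Function.update_of_ne h]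
        exact hk1 i (by omega)
    · have hne : i' ≠ n := by omega
      rw [Function.update_of_ne hne]
      rcases eq_or_ne i n with h | h
      · rw [h, Function.update_self]
        exact hb (k i') (mem_image_of_mem k (mem_range.2 (by omega))) ξ hξ
      · rw [Function.update_of_ne h]
        exact hk2 i (by omega) i' hi' ξ hξ

section main
variable {G : Type u} [AddCommGroup G] {d : ℕ} {m : St G} {φ : Fin d → G →+ G}
  {M : St (Fin d → G)}

theorem single_sol (a b : Fin d) (s t : G) (h : φ a s + φ b t = 0) :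
    ∑ j, φ j ((Pi.single a s + Pi.single b t : Fin d → G) j) = 0 := by
  have h1 : ∀ (c : Fin d) (r : G), ∑ j, φ j ((Pi.single c r : Fin d → G) j) = φ c r := by
    intro c r
    rw [sum_eq_single c]
    · rw [Pi.single_eq_same]
    · intro j _ hj
      rw [Pi.single_eq_of_ne hj, map_zero]
    · intro h
      exact absurd (mem_univ c) h
  simp only [Pi.add_apply, map_add, sum_add_distrib, h1, h]

theorem prod_bound {Y : Type u} (s : Finset (Fin d)) (H : Fin d → Y → ℂ) (B : ℝ)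
    (hB : ∀ j ∈ s, ∀ x, ‖H j x‖ ≤ B) (x : Fin d → Y) : ‖∏ j ∈ s, H j (x j)‖ ≤ B ^ s.card := by
  rw [norm_prod, ← prod_const]
  exact prod_le_prod (fun _ _ => norm_nonneg _) fun j hj => hB j hj (x j)

/-- the off-diagonal terms -/
theorem offdiag (hA : AVG m) {N : ℕ} (hφ : IdxLe φ N) (hM : IsSol m φ M) {j0 j1 : Fin d}
    (h01 : j0 ≠ j1) (H : Fin d → G → ℂ) (hH : ∀ j, Bdd (H j)) {B : ℝ} (hB0 : 0 ≤ B)
    (hB : ∀ j, j ≠ j0 → ∀ x, ‖H j x‖ ≤ B) {β : ℝ} (hβ : 0 ≤ β)
    (hco : ∀ ξ : AddChar G Circle, (∀ l ∈ (φ j1).range.comap (φ j0), ξ l = 1) →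
      ‖coef m (H j0) ξ‖ ≤ β) {ε : ℝ} (hε : 0 < ε) :
    ‖M (fun x => ∏ j ∈ univ.erase j1, H j (x j))‖ ≤ B ^ (d - 2) * Real.sqrt (N * β ^ 2 + ε) := by
  obtain ⟨hi0, hi1⟩ := idx (φ j0) (φ j1).range (hφ j1).1
  obtain ⟨s, w, hs, hw, hn⟩ := hA (H j0) (hH j0) _ hi0 β hβ hco ε hε
  have hmem : j0 ∈ univ.erase j1 := mem_erase.2 ⟨h01, mem_univ _⟩
  have hRb : Bdd (fun x : Fin d → G => ∏ j ∈ (univ.erase j1).erase j0, H j (x j)) :=
    Bdd.prod _ fun j _ => (hH j).comp fun x : Fin d → G => x j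
  have hsh : ∀ l ∈ s, M (fun x => ∏ j ∈ univ.erase j1, H j (x j))
      = M (fun x => H j0 (x j0 + l) * ∏ j ∈ (univ.erase j1).erase j0, H j (x j)) := by
    intro l hl
    obtain ⟨t, ht⟩ := AddSubgroup.mem_comap.1 (hs l hl).1
    have hsol : φ j0 l + φ j1 (-t) = 0 := by rw [map_neg, ht, add_neg_cancel]
    have h1 := hM.inv _ (single_sol j0 j1 l (-t) hsol)
      (fun x => ∏ j ∈ univ.erase j1, H j (x j)) (Bdd.prod _ fun j _ => (hH j).comp fun x : Fin d → G => x j)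
    rw [← h1]
    congr 1
    funext x
    rw [← mul_prod_erase _ _ hmem]
    have e0 : (x + (Pi.single j0 l + Pi.single j1 (-t)) : Fin d → G) j0 = x j0 + l := by
      simp [Pi.single_eq_of_ne h01]
    rw [e0]
    congr 1
    refine prod_congr rfl fun j hj => ?_
    have hj0 : j ≠ j0 := ne_of_mem_erase hj
    have hj1 : j ≠ j1 := ne_of_mem_erase (mem_of_mem_erase hj)
    simp [Pi.single_eq_of_ne hj0, Pi.single_eq_of_ne hj1]
  have hAb : Bdd (fun y => ∑ l ∈ s, (w l : ℂ) * H j0 (y + l)) :=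
    Bdd.sum _ fun l _ => ((hH j0).comp fun y => y + l).cmul _
  have h2 : M (fun x => ∏ j ∈ univ.erase j1, H j (x j))
      = M (fun x => (∑ l ∈ s, (w l : ℂ) * H j0 (x j0 + l)) *
          ∏ j ∈ (univ.erase j1).erase j0, H j (x j)) := by
    have e : (fun x : Fin d → G => (∑ l ∈ s, (w l : ℂ) * H j0 (x j0 + l)) *
          ∏ j ∈ (univ.erase j1).erase j0, H j (x j))
        = fun x => ∑ l ∈ s, (w l : ℂ) * (H j0 (x j0 + l) *
          ∏ j ∈ (univ.erase j1).erase j0, H j (x j)) := by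
      funext x
      rw [sum_mul]
      exact sum_congr rfl fun l _ => by ring
    have hb : ∀ l, Bdd (fun x : Fin d → G => H j0 (x j0 + l) *
        ∏ j ∈ (univ.erase j1).erase j0, H j (x j)) :=
      fun l => ((hH j0).comp fun x : Fin d → G => x j0 + l).mul hRb
    rw [e, M.map_sum _ fun l _ => (hb l).cmul _]
    have e2 : ∑ l ∈ s, M (fun x => (w l : ℂ) * (H j0 (x j0 + l) *
          ∏ j ∈ (univ.erase j1).erase j0, H j (x j)))
        = ∑ l ∈ s, (w l : ℂ) * M (fun x => ∏ j ∈ univ.erase j1, H j (x j)) :=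
      sum_congr rfl fun l hl => by rw [M.map_cmul _ (hb l), ← hsh l hl]
    rw [e2, ← sum_mul, ← Complex.ofReal_sum, hw, Complex.ofReal_one, one_mul]
  have hcard : ((univ.erase j1).erase j0).card = d - 2 := by
    rw [card_erase_of_mem hmem, card_erase_of_mem (mem_univ _), card_univ, Fintype.card_fin]
    omega
  have h3 := M.cs (hAb.comp fun x : Fin d → G => x j0) hRb
  rw [hM.marg_n2 j0 hAb] at h3
  have h4 : M.n2 (fun x : Fin d → G => ∏ j ∈ (univ.erase j1).erase j0, H j (x j))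
      ≤ (B ^ (d - 2)) ^ 2 := by
    refine M.n2_le_of fun x => ?_
    rw [← hcard]
    exact prod_bound _ H B (fun j hj => hB j (ne_of_mem_erase hj)) x
  rw [← h2] at h3
  have h5 : m.n2 (fun y => ∑ l ∈ s, (w l : ℂ) * H j0 (y + l)) ≤ N * β ^ 2 + ε := by
    refine hn.trans ?_
    have : (((φ j1).range.comap (φ j0)).index : ℝ) ≤ N := by
      exact_mod_cast hi1.trans (hφ j1).2
    have := mul_le_mul_of_nonneg_right this (sq_nonneg β)
    linarith
  have h6 : ‖M (fun x => ∏ j ∈ univ.erase j1, H j (x j))‖ ^ 2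
      ≤ (B ^ (d - 2) * Real.sqrt (N * β ^ 2 + ε)) ^ 2 := by
    rw [mul_pow, Real.sq_sqrt (by positivity), mul_comm]
    exact h3.trans (mul_le_mul h5 h4 (M.n2_nonneg hRb) (by positivity))
  exact (pow_le_pow_iff_left₀ (norm_nonneg _) (by positivity) two_ne_zero).1 h6

/-- the inequality before the limit -/
theorem pre (hch : S_ch.{u}) (hA : AVG m) (hW : WM m) {N : ℕ} (hφ : IdxLe φ N)
    (hM : IsSol m φ M) {j0 j1 j2 : Fin d} (h01 : j0 ≠ j1) (h02 : j0 ≠ j2) (h12 : j1 ≠ j2)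
    (ω : AddChar (Fin d → G) Circle) (g : Fin d → G → ℂ) (hg : ∀ j, Bdd (g j)) {C τ : ℝ}
    (hC : 1 ≤ C) (hτ : 0 ≤ τ) (hgC : ∀ j, j ≠ j0 → ∀ x, ‖g j x‖ ≤ C)
    (hco : ∀ Λ : Finset (AddChar G Circle), ∑ ξ ∈ Λ, ‖coef m (g j0) ξ‖ ^ 2 ≤ τ ^ 2)
    {C0 : ℝ} (hC0 : 0 ≤ C0) (hg0 : ∀ x, ‖g j0 x‖ ≤ C0) {ε : ℝ} (hε : 0 < ε) {n : ℕ} (hn : 0 < n) :
    ‖M (fun x => (ω x : ℂ) * ∏ j, g j (x j))‖ ^ 2 ≤
      C ^ 2 * (C ^ 2) ^ (d - 2) *
        (C0 ^ 2 * (1 / n) + Real.sqrt (N * (τ ^ 2 + ε) ^ 2 + ε)) := by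
  obtain ⟨Ξ, hΞ, -, -⟩ := hch G ((φ j1).range.comap (φ j0)) (idx (φ j0) (φ j1).range (hφ j1).1).1
  obtain ⟨k, hk1, hk2⟩ := shifts hW (hg j0) hτ hco ((φ j2).range.comap (φ j0))
    (idx (φ j0) (φ j2).range (hφ j2).1).1 Ξ hε n
  have hex : ∀ s : G, ∃ t : G, s ∈ (φ j2).range.comap (φ j0) → φ j0 s + φ j2 t = 0 := by
    intro s
    by_cases hs : s ∈ (φ j2).range.comap (φ j0)
    · obtain ⟨t, ht⟩ := AddSubgroup.mem_comap.1 hs
      exact ⟨-t, fun _ => by rw [map_neg, ht, add_neg_cancel]⟩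
    · exact ⟨0, fun h => absurd h hs⟩
  choose t ht using hex
  set κ : ℕ → Fin d → G := fun i => Pi.single j0 (k i) + Pi.single j2 (t (k i)) with hκ
  have hκ0 : ∀ i, κ i j0 = k i := by
    intro i
    simp [hκ, Pi.single_eq_of_ne h02]
  have hκ1 : ∀ i, κ i j1 = 0 := by
    intro i
    simp [hκ, Pi.single_eq_of_ne h12, Pi.single_eq_of_ne h01.symm]
  set b : ℕ → (Fin d → G) → ℂ := fun i x =>
    (ω (κ i) : ℂ) * ∏ j ∈ univ.erase j1, g j (x j + κ i j) with hb
  have hbb : ∀ i, Bdd (b i) := fun i =>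
    (Bdd.prod _ fun j _ => (hg j).comp fun x : Fin d → G => x j + κ i j).cmul _
  have hshift : ∀ i < n, M (fun x => (ω x : ℂ) * ∏ j, g j (x j))
      = M (fun x => (g j1 (x j1) * (ω x : ℂ)) * b i x) := by
    intro i hi
    have h1 := hM.inv (κ i) (single_sol j0 j2 _ _ (ht _ (hk1 i hi)))
      (fun x => (ω x : ℂ) * ∏ j, g j (x j))
      ((Bdd.char ω).mul (Bdd.prod _ fun j _ => (hg j).comp fun x : Fin d → G => x j))
    rw [← h1]
    congr 1
    funext x
    rw [char_add, ← mul_prod_erase univ _ (mem_univ j1)]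
    have e1 : (x + κ i) j1 = x j1 := by simp [hκ1]
    rw [e1]
    simp only [hb, Pi.add_apply]
    ring
  have hvdc := vdc M n _ (fun x => g j1 (x j1) * (ω x : ℂ)) C (fun x => by
    rw [norm_mul, norm_char, mul_one]
    exact hgC j1 h01.symm _) b hbb hshift
  -- the products
  have hprod : ∀ i i', ‖M (fun x => b i x * conj (b i' x))‖
      = ‖M (fun x => ∏ j ∈ univ.erase j1, (fun y => g j (y + κ i j) * conj (g j (y + κ i' j))) (x j))‖ := by
    intro i i'
    have e : (fun x => b i x * conj (b i' x)) = fun x => ((ω (κ i) : ℂ) * conj (ω (κ i') : ℂ)) *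
        ∏ j ∈ univ.erase j1, (fun y => g j (y + κ i j) * conj (g j (y + κ i' j))) (x j) := by
      funext x
      simp only [hb]
      rw [_root_.map_mul, _root_.map_prod, prod_mul_distrib]
      ring
    rw [e, M.map_cmul, norm_mul, norm_mul, RCLike.norm_conj, norm_char, norm_char, one_mul, one_mul]
    exact Bdd.prod _ fun j _ => (((hg j).comp fun y => y + κ i j).mul
      ((hg j).comp fun y => y + κ i' j).conj).comp fun x : Fin d → G => x j
  set q : ℝ := (C ^ 2) ^ (d - 2) * Real.sqrt (N * (τ ^ 2 + ε) ^ 2 + ε) with hq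
  have hqn : 0 ≤ q := by positivity
  have hoff : ∀ i < n, ∀ i' < i, ‖M (fun x => b i x * conj (b i' x))‖ ≤ q := by
    intro i hi i' hi'
    rw [hprod i i']
    refine offdiag hA hφ hM h01 (fun j y => g j (y + κ i j) * conj (g j (y + κ i' j)))
      (fun j => ((hg j).comp fun y => y + κ i j).mul ((hg j).comp fun y => y + κ i' j).conj)
      (sq_nonneg C) (fun j hj x => ?_) (by positivity) (fun ξ hξ => ?_) hε
    · rw [norm_mul, RCLike.norm_conj, sq]
      exact mul_le_mul (hgC j hj _) (hgC j hj _) (norm_nonneg _) (by linarith)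
    · have := hk2 i hi i' hi' ξ ((hΞ ξ).2 hξ)
      unfold coef
      rw [hκ0, hκ0]
      exact this
  have hcard : (univ.erase j1 : Finset (Fin d)).card = d - 1 := by
    rw [card_erase_of_mem (mem_univ _), card_univ, Fintype.card_fin]
  have hmem : j0 ∈ univ.erase j1 := mem_erase.2 ⟨h01, mem_univ _⟩
  have hcard2 : ((univ.erase j1).erase j0).card = d - 2 := by
    rw [card_erase_of_mem hmem, hcard]
    omega
  have hdiag : ∀ i < n, ‖M (fun x => b i x * conj (b i x))‖ ≤ C0 ^ 2 * (C ^ 2) ^ (d - 2) := by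
    intro i _
    rw [hprod i i]
    refine M.norm_le_of fun x => ?_
    rw [← mul_prod_erase _ _ hmem, norm_mul]
    have h1 := prod_bound ((univ.erase j1).erase j0)
      (fun j y => g j (y + κ i j) * conj (g j (y + κ i j))) (C ^ 2) (fun j hj y => by
        rw [norm_mul, RCLike.norm_conj, sq]
        exact mul_le_mul (hgC j (ne_of_mem_erase hj) _) (hgC j (ne_of_mem_erase hj) _)
          (norm_nonneg _) (by linarith)) x
    rw [hcard2] at h1
    refine mul_le_mul ?_ h1 (norm_nonneg _) (by positivity)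
    rw [norm_mul, RCLike.norm_conj, sq]
    exact mul_le_mul (hg0 _) (hg0 _) (norm_nonneg _) hC0
  have hsum := dsum n (fun i i' => ‖M (fun x => b i x * conj (b i' x))‖)
    (C0 ^ 2 * (C ^ 2) ^ (d - 2)) q hqn hdiag (fun i hi i' hi' hne => by
      rcases lt_or_gt_of_ne hne with h | h
      · have h1 := hoff i' hi' i h
        have h2 : M (fun x => b i x * conj (b i' x)) = conj (M (fun x => b i' x * conj (b i x))) := by
          rw [← M.map_conj ((hbb i').mul (hbb i).conj)]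
          congr 1
          funext x
          have hc : ∀ u v : ℂ, u * conj v = conj (v * conj u) := by
            intro u v
            rw [_root_.map_mul, Complex.conj_conj, mul_comm]
          exact hc _ _
        rw [h2, RCLike.norm_conj]
        exact h1
      · exact hoff i hi i' h)
  have hfin := hvdc.trans (mul_le_mul_of_nonneg_left hsum (sq_nonneg C))
  have hnR : (0 : ℝ) < n := by exact_mod_cast hn
  have hn2 : (0 : ℝ) < (n : ℝ) ^ 2 := by positivity
  refine le_of_mul_le_mul_left (hfin.trans (le_of_eq ?_)) hn2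
  rw [hq]
  field_simp

end main

/-- Claim 4.1 -/
theorem s_c41 : S_ch.{u} → S_c41.{u} := by
  intro hch G _ m hm hA hW d N φ hφ M hM j0 j1 j2 h01 h02 h12 ω g hg C τ hC hτ hgC hco
  obtain ⟨C0, hC0, hg0⟩ := (hg j0).nonneg
  have hN : 1 ≤ N := (Nat.one_le_iff_ne_zero.2 (hφ j0).1).trans (hφ j0).2
  have hNR : (1 : ℝ) ≤ N := by exact_mod_cast hN
  set z := ‖M (fun x => (ω x : ℂ) * ∏ j, g j (x j))‖ with hz
  set f : ℝ → ℝ := fun x => C ^ 2 * (C ^ 2) ^ (d - 2) *
    (C0 ^ 2 * x + Real.sqrt (N * (τ ^ 2 + x) ^ 2 + x)) with hf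
  have hfc : Continuous f := by
    simp only [hf]
    fun_prop
  have h1 : ∀ n : ℕ, z ^ 2 ≤ f (1 / ((n : ℝ) + 1)) := by
    intro n
    have := pre hch hA hW hφ hM h01 h02 h12 ω g hg hC hτ hgC hco hC0 hg0
      (ε := 1 / ((n : ℝ) + 1)) (by positivity) (n := n + 1) (Nat.succ_pos n)
    push_cast at this
    exact this
  have h2 : Tendsto (fun n : ℕ => f (1 / ((n : ℝ) + 1))) atTop (𝓝 (f 0)) :=
    (hfc.tendsto 0).comp tendsto_one_div_add_atTop_nhds_zero_nat
  have h3 : z ^ 2 ≤ f 0 := ge_of_tendsto' h2 h1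
  have hd : 2 ≤ d := by
    have := j0.2
    have := j1.2
    by_contra hcon
    apply h01
    ext
    omega
  have h4 : f 0 ≤ (N * τ * C ^ d) ^ 2 := by
    have h5 : f 0 = (C ^ (d - 1)) ^ 2 * (Real.sqrt N * τ ^ 2) := by
      simp only [hf, mul_zero, zero_add, add_zero]
      have e1 : (N : ℝ) * (τ ^ 2) ^ 2 = N * (τ ^ 2) ^ 2 := rfl
      rw [Real.sqrt_mul (by linarith), Real.sqrt_sq (sq_nonneg τ)]
      have e2 : C ^ 2 * (C ^ 2) ^ (d - 2) = (C ^ (d - 1)) ^ 2 := by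
        rw [← pow_succ', ← pow_mul, ← pow_mul]
        congr 1
        omega
      rw [e2]
    rw [h5, mul_pow, mul_pow]
    have h6 : Real.sqrt N ≤ (N : ℝ) ^ 2 := by
      rw [Real.sqrt_le_left (by positivity)]
      calc (N : ℝ) = N ^ 1 := (pow_one _).symm
        _ ≤ N ^ 4 := pow_le_pow_right₀ hNR (by norm_num)
        _ = ((N : ℝ) ^ 2) ^ 2 := by ring
    have h7 : (C ^ (d - 1)) ^ 2 ≤ (C ^ d) ^ 2 :=
      pow_le_pow_left₀ (by positivity) (pow_le_pow_right₀ hC (by omega)) 2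
    have h8 : Real.sqrt N * τ ^ 2 ≤ (N : ℝ) ^ 2 * τ ^ 2 := mul_le_mul_of_nonneg_right h6 (sq_nonneg τ)
    calc (C ^ (d - 1)) ^ 2 * (Real.sqrt N * τ ^ 2) ≤ (C ^ d) ^ 2 * ((N : ℝ) ^ 2 * τ ^ 2) :=
          mul_le_mul h7 h8 (by positivity) (by positivity)
      _ = _ := by ring
  exact (pow_le_pow_iff_left₀ (norm_nonneg _) (by positivity) two_ne_zero).1 (h3.trans h4)

end Pool.Agent.R938.Bohr
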